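import Pool.Agent.helper34.MO.SpecD

/-! Row mo:PIT (MP_0631c5_co) -/

set_option autoImplicit false

open Complex Finset

namespace Pool.Agent.MO

theorem PIT_one (x a b : ℝ) :
    IntervalIntegrable (fun t => t * Real.arctan (x / t)) MeasureTheory.volume a b := by
  have h1 : Continuous fun t : ℝ => |t| * (Real.pi / 2) := by fun_prop
  refine IntervalIntegrable.mono_fun' (h1.intervalIntegrable a b) ?_ ?_
  · refine Measurable.aestronglyMeasurable ?_
    exact measurable_id.mul (Real.measurable_arctan.comp (measurable_const.div measurable_id))
  · refine Filter.Eventually.of_forall fun t => ?_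
    show ‖t * Real.arctan (x / t)‖ ≤ |t| * (Real.pi / 2)
    rw [Real.norm_eq_abs, abs_mul]
    refine mul_le_mul_of_nonneg_left ?_ (abs_nonneg t)
    rw [abs_le]
    exact ⟨by linarith [Real.neg_pi_div_two_lt_arctan (x / t)], (Real.arctan_lt_pi_div_two (x / t)).le⟩

theorem PIT : PIT_stmt := by
  intro L a b ha hab
  induction L using Multiset.induction_on with
  | empty => simp [Phi]
  | cons x L ih =>
    have e : (fun t => t * Phi (x ::ₘ L) t) =
        fun t => -(t * Real.arctan (x / t)) + t * Phi L t := by
      funext t
      unfold Phi
      rw [Multiset.map_cons, Multiset.sum_cons]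
      ring
    rw [e]
    exact (PIT_one x a b).neg.add ih

end Pool.Agent.MO
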